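import Mathlib

/-!
# MP_0168d2_co: a symmetric order condition without connection and with too few palindromes

The alphabet is `{0,1,2,3}`, with `0 < 1 < 2 < 3` for `<_A` and the reversed order for `<_D`.
The language consists of the paths of the graph `0 → 3`, `1 → 3`, `2 → 0,1,2,3`, `3 → 0`.
Its only bispecial word is the empty word, and its palindromes of length `3` are
`030`, `303`, `222`.
-/

set_option autoImplicit false

namespace Pool.Agent.Results.MP_0168d2_co.FewPalindromes

/-- A language on the alphabet `A` (all letters of `A` occur): it contains the empty word and all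
letters, it is factorial and it is extendable. -/
structure IsLanguage {A : Type} (L : Set (List A)) : Prop where
  nil_mem : [] ∈ L
  letter_mem : ∀ a : A, [a] ∈ L
  tail_mem : ∀ (a : A) (u : List A), a :: u ∈ L → u ∈ L
  init_mem : ∀ (u : List A) (b : A), u ++ [b] ∈ L → u ∈ L
  ext_left : ∀ v ∈ L, ∃ a : A, a :: v ∈ L
  ext_right : ∀ v ∈ L, ∃ b : A, v ++ [b] ∈ L

/-- `w ∈ L` is bispecial: at least two letters extend it to the left and at least two to the
right. -/
def Bispecial {A : Type} (L : Set (List A)) (w : List A) : Prop :=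
  w ∈ L ∧ (∃ a a' : A, a ≠ a' ∧ a :: w ∈ L ∧ a' :: w ∈ L) ∧
    (∃ b b' : A, b ≠ b' ∧ w ++ [b] ∈ L ∧ w ++ [b'] ∈ L)

/-- The order condition for the pair `(ltA, ltD)` of strict orders. -/
def OrderCondition {A : Type} (ltA ltD : A → A → Prop) (L : Set (List A)) : Prop :=
  ∀ v, Bispecial L v → ∀ x x' y y' : A, x ≠ x' → y ≠ y' →
    x :: (v ++ [y]) ∈ L → x' :: (v ++ [y']) ∈ L → (ltA x x' ↔ ltD y y')

/-- `a` and `a'` are consecutive for the strict order `lt`. -/
def Consecutive {A : Type} (lt : A → A → Prop) (a a' : A) : Prop :=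
  lt a a' ∧ ∀ c, ¬ (lt a c ∧ lt c a')

/-- The bispecial word `w` has a connection. -/
def HasConnection {A : Type} (ltA ltD : A → A → Prop) (L : Set (List A)) (w : List A) : Prop :=
  ∃ a a' b b' : A, Consecutive ltA a a' ∧ Consecutive ltD b b' ∧
    a :: (w ++ [b]) ∈ L ∧ a' :: (w ++ [b']) ∈ L ∧ a :: (w ++ [b']) ∉ L ∧ a' :: (w ++ [b]) ∉ L

/-- The palindromic complexity: the number of palindromes of length `n` in `L`. -/
noncomputable def PC {A : Type} (L : Set (List A)) (n : ℕ) : ℕ∞ :=
  Set.encard {w : List A | w ∈ L ∧ w.length = n ∧ w.reverse = w}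

/-- edges of the graph -/
def E (a b : Fin 4) : Prop :=
  (a = 0 ∧ b = 3) ∨ (a = 1 ∧ b = 3) ∨ a = 2 ∨ (a = 3 ∧ b = 0)

instance : DecidableRel E := fun a b => by unfold E; infer_instance

/-- the language of paths -/
def L : Set (List (Fin 4)) := {w | w.IsChain E}

theorem pred (b : Fin 4) : ∃ a, E a b := by revert b; decide

theorem succ (a : Fin 4) : ∃ b, E a b := by revert a; decide

theorem isLanguage : IsLanguage L where
  nil_mem := by simp [L]
  letter_mem := by simp [L]
  tail_mem := by
    intro a u h
    exact List.IsChain.tail h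
  init_mem := by
    intro u b h
    exact List.IsChain.left_of_append h
  ext_left := by
    intro v hv
    cases v with
    | nil => exact ⟨0, by simp [L]⟩
    | cons c t =>
      obtain ⟨a, ha⟩ := pred c
      exact ⟨a, List.isChain_cons_cons.2 ⟨ha, hv⟩⟩
  ext_right := by
    intro v hv
    rcases List.eq_nil_or_concat v with rfl | ⟨u, c, rfl⟩
    · exact ⟨0, by simp [L]⟩
    · obtain ⟨b, hb⟩ := succ c
      refine ⟨b, ?_⟩
      rw [List.concat_eq_append] at hv ⊢
      refine List.isChain_append.2 ⟨hv, by simp, ?_⟩
      intro x hx y hy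
      simp only [List.getLast?_append, List.getLast?_singleton, List.head?_cons,
        Option.mem_def, Option.some_or, Option.some.injEq] at hx hy
      subst hx hy
      exact hb

theorem E_two {a : Fin 4} (h : E a 2) : a = 2 := by revert a; decide

theorem E_unique {a b b' : Fin 4} (ha : a ≠ 2) (h : E a b) (h' : E a b') : b = b' := by
  revert a b b'; decide

/-- a path ending in `2` consists of `2`s -/
theorem all_two : ∀ w : List (Fin 4), w.IsChain E → w.getLast? = some 2 → w.head? = some 2 := by
  intro w
  induction w with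
  | nil => intro _ h; simp at h
  | cons c t ih =>
    intro h1 h2
    cases t with
    | nil => simpa using h2
    | cons d t' =>
      rw [List.isChain_cons_cons] at h1
      have h3 := ih h1.2 (by simpa using h2)
      simp only [List.head?_cons, Option.some.injEq] at h3 ⊢
      subst h3
      exact E_two h1.1

/-- the empty word is the only bispecial word -/
theorem bispecial_nil {w : List (Fin 4)} (h : Bispecial L w) : w = [] := by
  obtain ⟨_, ⟨a, a', haa, h1, h2⟩, ⟨b, b', hbb, h3, h4⟩⟩ := h
  by_contra hne
  obtain ⟨c, hc⟩ : ∃ c, w.getLast? = some c := by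
    rcases List.eq_nil_or_concat w with rfl | ⟨u, c, rfl⟩
    · exact absurd rfl hne
    · exact ⟨c, by simp⟩
  obtain ⟨d, t, rfl⟩ : ∃ d t, w = d :: t := List.exists_cons_of_ne_nil hne
  have e1 : E c b := (List.isChain_append.1 h3).2.2 c hc b (by simp)
  have e2 : E c b' := (List.isChain_append.1 h4).2.2 c hc b' (by simp)
  have c2 : c = 2 := by
    by_contra hc2
    exact hbb (E_unique hc2 e1 e2)
  subst c2
  have h5 := all_two (d :: t) (List.IsChain.left_of_append h3) hc
  simp only [List.head?_cons, Option.some.injEq] at h5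
  subst h5
  have f1 : E a 2 := (List.isChain_cons_cons.1 h1).1
  have f2 : E a' 2 := (List.isChain_cons_cons.1 h2).1
  exact haa ((E_two f1).trans (E_two f2).symm)

theorem mem_pair {a b : Fin 4} : a :: (([] : List (Fin 4)) ++ [b]) ∈ L ↔ E a b := by
  simp [L]

theorem orderCondition : OrderCondition (fun a b => a < b) (fun a b => b < a) L := by
  intro v hv x x' y y' hx hy h1 h2
  have := bispecial_nil hv
  subst this
  rw [mem_pair] at h1 h2
  revert x x' y y'
  decide

theorem noConnection (w : List (Fin 4)) (hw : Bispecial L w) :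
    ¬ HasConnection (fun a b => a < b) (fun a b => b < a) L w := by
  have := bispecial_nil hw
  subst this
  rintro ⟨a, a', b, b', ⟨h1, h2⟩, ⟨h3, h4⟩, h5, h6, h7, h8⟩
  rw [mem_pair] at h5 h6 h7 h8
  revert a a' b b'
  decide

/-- **MP_0168d2_co, Q1 is false.** There is a language `L` on four letters that satisfies the order
condition for a symmetric pair of orders, has no connection, and has fewer than four palindromes of
length three. -/
theorem result : ∃ L : Set (List (Fin 4)), IsLanguage L ∧
    OrderCondition (fun a b => a < b) (fun a b => b < a) L ∧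
    (∀ w, Bispecial L w → ¬ HasConnection (fun a b => a < b) (fun a b => b < a) L w) ∧
    PC L 3 < 4 := by
  refine ⟨L, isLanguage, orderCondition, noConnection, ?_⟩
  have hsub : {w : List (Fin 4) | w ∈ L ∧ w.length = 3 ∧ w.reverse = w} ⊆
      {[0, 3, 0], [3, 0, 3], [2, 2, 2]} := by
    rintro w ⟨h1, h2, h3⟩
    obtain ⟨a, b, c, rfl⟩ := List.length_eq_three.1 h2
    simp only [List.reverse_cons, List.reverse_nil, List.nil_append, List.cons_append,
      List.cons.injEq, and_true] at h3
    obtain ⟨rfl, _⟩ := h3
    have e1 : E c b := (List.isChain_cons_cons.1 h1).1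
    have e2 : E b c := (List.isChain_cons_cons.1 (List.isChain_cons_cons.1 h1).2).1
    clear h1 h2
    simp only [Set.mem_insert_iff, Set.mem_singleton_iff]
    revert b c
    decide
  calc PC L 3 ≤ Set.encard ({[0, 3, 0], [3, 0, 3], [2, 2, 2]} : Set (List (Fin 4))) :=
        Set.encard_le_encard hsub
    _ ≤ 3 := by
        refine (Set.encard_insert_le _ _).trans ?_
        refine (add_le_add_left (Set.encard_insert_le _ _) 1).trans ?_
        rw [Set.encard_singleton]
        norm_num
    _ < 4 := by norm_num

end Pool.Agent.Results.MP_0168d2_co.FewPalindromes
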